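import Pool.Agent.X26.LF.Stm

set_option autoImplicit false

namespace Pool.Agent.X269.LF

open Finset Pool.Agent.X26.LF

open Classical in
theorem t_SM : S_CNT → S_SM := by
  intro hC m p N hp u s hm hu hT
  let c : (Fin m ↪ Fin N) → Fin N → ZMod p := fun ι i => ∑ j, if ι j = i then u j else 0
  have hc : ∀ (ι : Fin m ↪ Fin N) (x : Fin N → ZMod p),
      ∑ i, c ι i * x i = ∑ j, u j * x (ι j) := by
    intro ι x
    simp only [c, Finset.sum_mul]
    rw [Finset.sum_comm]
    refine Finset.sum_congr rfl (fun j _ => ?_)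
    simp [ite_mul, Finset.sum_ite_eq]
  have hcι : ∀ (ι : Fin m ↪ Fin N) j, c ι (ι j) = u j := by
    intro ι j
    simp only [c]
    rw [Finset.sum_eq_single j]
    · simp
    · intro b _ hb
      rw [if_neg]
      exact fun h => hb (ι.injective h)
    · simp
  have hc0 : ∀ (ι : Fin m ↪ Fin N) i, (∀ j, ι j ≠ i) → c ι i = 0 := by
    intro ι i h
    simp only [c]
    exact Finset.sum_eq_zero (fun j _ => if_neg (h j))
  have hne : ∀ ι, c ι ≠ 0 := by
    intro ι h
    apply hu ⟨0, hm⟩
    rw [← hcι ι ⟨0, hm⟩, h]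
    rfl
  set T := Fintype.card (Fin m ↪ Fin N) with hTdef
  have hT' : T = N.descFactorial m := by
    rw [hTdef, Fintype.card_embedding_eq, Fintype.card_fin, Fintype.card_fin]
  rw [← hT'] at hT
  have hp0 : 0 < p := hp.out.pos
  have hM0 : 0 < m.factorial := Nat.factorial_pos m
  have hT0 : 0 < T := lt_of_lt_of_le (by positivity) hT
  let X : (Fin N → ZMod p) → ℕ := fun x =>
    ∑ ι : Fin m ↪ Fin N, if ∑ j, u j * x (ι j) = s then 1 else 0
  have hX0 : ∀ x, X x = 0 ↔ ¬ ∃ ι : Fin m ↪ Fin N, ∑ j, u j * x (ι j) = s := by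
    intro x
    simp only [X, Finset.sum_eq_zero_iff, Finset.mem_univ, true_imp_iff, ite_eq_right_iff,
      one_ne_zero, imp_false, not_exists]
  have h1 : p * ∑ x, X x = T * p ^ N := by
    simp only [X]
    rw [Finset.sum_comm, Finset.mul_sum]
    rw [Finset.sum_congr rfl (g := fun _ => p ^ N)]
    · rw [Finset.sum_const, Finset.card_univ, smul_eq_mul]
    · intro ι _
      rw [Finset.sum_boole]
      have := (hC p N (c ι) 0 s 0 (hne ι)).1
      simp only [hc] at this
      simpa using this
  have hdep : ∀ ι : Fin m ↪ Fin N,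
      (univ.filter fun ι' : Fin m ↪ Fin N => ∃ l, c ι' = fun i => l * c ι i).card
        ≤ m.factorial := by
    intro ι
    have : (univ.filter fun ι' : Fin m ↪ Fin N => ∃ l, c ι' = fun i => l * c ι i) ⊆
        (univ : Finset (Equiv.Perm (Fin m))).image (fun σ => σ.toEmbedding.trans ι) := by
      intro ι' h
      obtain ⟨l, hl⟩ := (Finset.mem_filter.1 h).2
      have h3 : ∀ j, ∃ j', ι j' = ι' j := by
        intro j
        by_contra h4
        push Not at h4
        have h5 := congrFun hl (ι' j)
        rw [hcι, hc0 ι _ h4, mul_zero] at h5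
        exact hu j h5
      choose f hf using h3
      have hinj : Function.Injective f := by
        intro a b hab
        apply ι'.injective
        rw [← hf, ← hf, hab]
      rw [Finset.mem_image]
      refine ⟨Equiv.ofBijective f (Finite.injective_iff_bijective.1 hinj), Finset.mem_univ _, ?_⟩
      ext j
      simp [hf]
    refine (Finset.card_le_card this).trans (Finset.card_image_le.trans ?_)
    rw [Finset.card_univ, Fintype.card_perm, Fintype.card_fin]
  have h2 : p ^ 2 * ∑ x, X x ^ 2 ≤ T ^ 2 * p ^ N + T * (m.factorial * (p * p ^ N)) := by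
    have h3 : ∑ x, X x ^ 2 = ∑ ι : Fin m ↪ Fin N, ∑ ι' : Fin m ↪ Fin N,
        (univ.filter fun x : Fin N → ZMod p => ∑ i, c ι i * x i = s ∧
          ∑ i, c ι' i * x i = s).card := by
      simp only [X, sq, Finset.sum_mul_sum]
      rw [Finset.sum_comm]
      refine Finset.sum_congr rfl (fun ι _ => ?_)
      rw [Finset.sum_comm]
      refine Finset.sum_congr rfl (fun ι' _ => ?_)
      rw [Finset.card_filter]
      refine Finset.sum_congr rfl (fun x _ => ?_)
      rw [hc, hc]
      by_cases ha : ∑ j, u j * x (ι j) = s <;> by_cases hb : ∑ j, u j * x (ι' j) = s <;>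
        simp [ha, hb]
    rw [h3, Finset.mul_sum]
    have h4 : ∀ ι : Fin m ↪ Fin N, p ^ 2 * ∑ ι' : Fin m ↪ Fin N,
        (univ.filter fun x : Fin N → ZMod p => ∑ i, c ι i * x i = s ∧
          ∑ i, c ι' i * x i = s).card ≤ T * p ^ N + m.factorial * (p * p ^ N) := by
      intro ι
      rw [Finset.mul_sum]
      have h5 : ∀ ι' : Fin m ↪ Fin N, p ^ 2 * (univ.filter fun x : Fin N → ZMod p =>
          ∑ i, c ι i * x i = s ∧ ∑ i, c ι' i * x i = s).card ≤
          p ^ N + (if ∃ l, c ι' = fun i => l * c ι i then p * p ^ N else 0) := by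
        intro ι'
        by_cases hd : ∃ l, c ι' = fun i => l * c ι i
        · rw [if_pos hd]
          have h6 := (hC p N (c ι) 0 s 0 (hne ι)).1
          have h7 : (univ.filter fun x : Fin N → ZMod p =>
              ∑ i, c ι i * x i = s ∧ ∑ i, c ι' i * x i = s).card ≤
              (univ.filter fun x : Fin N → ZMod p => ∑ i, c ι i * x i = s).card := by
            refine Finset.card_le_card (fun x hx => ?_)
            rw [Finset.mem_filter] at hx ⊢
            exact ⟨hx.1, hx.2.1⟩
          calc p ^ 2 * _ ≤ p ^ 2 * _ := Nat.mul_le_mul_left _ h7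
            _ = p * (p * (univ.filter fun x : Fin N → ZMod p => ∑ i, c ι i * x i = s).card) := by
                ring
            _ = p * p ^ N := by rw [← h6]
            _ ≤ p ^ N + p * p ^ N := Nat.le_add_left _ _
        · rw [if_neg hd, add_zero]
          exact ((hC p N (c ι) (c ι') s s (hne ι)).2 hd).le
      refine (Finset.sum_le_sum (fun ι' _ => h5 ι')).trans ?_
      rw [Finset.sum_add_distrib, Finset.sum_const, Finset.card_univ, smul_eq_mul,
        ← Finset.sum_filter, Finset.sum_const, smul_eq_mul]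
      exact Nat.add_le_add_left (Nat.mul_le_mul_right _ (hdep ι)) _
    refine (Finset.sum_le_sum (fun ι _ => h4 ι)).trans ?_
    rw [Finset.sum_const, Finset.card_univ, smul_eq_mul]
    apply le_of_eq
    ring
  -- Cauchy-Schwarz
  set P := univ.filter (fun x : Fin N → ZMod p => ¬ X x = 0) with hP
  have h6 : ∑ x ∈ P, X x = ∑ x, X x := by
    rw [hP, Finset.sum_filter]
    refine Finset.sum_congr rfl (fun x _ => ?_)
    by_cases hx : X x = 0
    · simp [hx]
    · rw [if_pos hx]
  have h7 : (∑ x, X x) ^ 2 ≤ P.card * ∑ x, X x ^ 2 := by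
    rw [← h6]
    refine (sq_sum_le_card_mul_sum_sq (s := P) (f := X)).trans (Nat.mul_le_mul_left _ ?_)
    exact Finset.sum_le_sum_of_subset (Finset.subset_univ _)
  have h8 : (univ.filter fun x : Fin N → ZMod p =>
      ¬ ∃ ι : Fin m ↪ Fin N, ∑ j, u j * x (ι j) = s) = univ.filter (fun x => X x = 0) := by
    ext x
    rw [Finset.mem_filter, Finset.mem_filter, hX0]
  have h9 : (univ.filter (fun x => X x = 0)).card + P.card = p ^ N := by
    rw [hP, Finset.card_filter_add_card_filter_not (fun x => X x = 0), Finset.card_univ,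
      Fintype.card_fun, ZMod.card, Fintype.card_fin]
  rw [h8]
  set N0 := (univ.filter (fun x => X x = 0)).card
  set A1 := ∑ x, X x
  set A2 := ∑ x, X x ^ 2
  set Q := p ^ N with hQ
  have hQ0 : 0 < Q := by positivity
  have h10 : (T * Q) * (T * Q) ≤ (T * Q) * (P.card * (T + m.factorial * p)) := by
    calc (T * Q) * (T * Q) = (p * A1) * (p * A1) := by rw [h1]
      _ = p ^ 2 * A1 ^ 2 := by ring
      _ ≤ p ^ 2 * (P.card * A2) := Nat.mul_le_mul_left _ h7
      _ = P.card * (p ^ 2 * A2) := by ring
      _ ≤ P.card * (T ^ 2 * Q + T * (m.factorial * (p * Q))) := Nat.mul_le_mul_left _ h2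
      _ = _ := by ring
  have h11 : T * Q ≤ P.card * (T + m.factorial * p) :=
    Nat.le_of_mul_le_mul_left h10 (by positivity)
  have h12 : T * (8 * Q) ≤ T * (9 * P.card) := by
    calc T * (8 * Q) = 8 * (T * Q) := by ring
      _ ≤ 8 * (P.card * (T + m.factorial * p)) := Nat.mul_le_mul_left _ h11
      _ = P.card * (8 * T) + P.card * (8 * m.factorial * p) := by ring
      _ ≤ P.card * (8 * T) + P.card * T := Nat.add_le_add_left (Nat.mul_le_mul_left _ hT) _
      _ = T * (9 * P.card) := by ring
  have h13 : 8 * Q ≤ 9 * P.card := Nat.le_of_mul_le_mul_left h12 hT0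
  omega

end Pool.Agent.X269.LF
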